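import Mathlib

set_option autoImplicit false

namespace Pool.Agent.Results.MP_93535d_co.Circ30

/-- eccentricity of a vertex -/
noncomputable def ecc {n : ℕ} (G : SimpleGraph (Fin n)) (v : Fin n) : ℕ :=
  Finset.univ.sup (fun u => G.dist u v)

/-- multipacking: every ball of radius k ≥ 1 contains at most k of its vertices -/
def IsMultipacking {n : ℕ} (G : SimpleGraph (Fin n)) (M : Finset (Fin n)) : Prop :=
  ∀ (v : Fin n) (k : ℕ), 1 ≤ k → (M.filter (fun u => G.dist u v ≤ k)).card ≤ k

/-- dominating broadcast -/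
def IsDomBroadcast {n : ℕ} (G : SimpleGraph (Fin n)) (f : Fin n → ℕ) : Prop :=
  (∀ v, f v ≤ ecc G v) ∧ ∀ u, ∃ v, 1 ≤ f v ∧ G.dist u v ≤ f v

/-- objective values of the feasible points of the fractional broadcast linear program -/
def fracCosts {n : ℕ} (G : SimpleGraph (Fin n)) : Set ℝ :=
  {c | ∃ x : Fin n → ℕ → ℝ, (∀ v k, 0 ≤ x v k) ∧
    (∀ u, 1 ≤ ∑ v, ∑ k ∈ Finset.Icc 1 (ecc G v), if G.dist u v ≤ k then x v k else 0) ∧
    c = ∑ v, ∑ k ∈ Finset.Icc 1 (ecc G v), (k : ℝ) * x v k}

def nrL : List ℕ := [0, 4, 1, 3, 1, 3, 1, 3, 2, 2, 2, 2, 2, 2, 3, 1, 3, 2, 2, 2, 2, 2, 2, 3, 1, 3, 1,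
  3, 1, 4]

def nr (a : Fin 30) : ℕ := nrL.getD a.val 0

theorem nr_symm : ∀ a b : Fin 30, nr (a - b) = nr (b - a) := by decide +kernel
theorem nr_self : ∀ a : Fin 30, nr (a - a) = 0 := by decide +kernel
theorem nr_zero : ∀ a b : Fin 30, nr (a - b) = 0 → a = b := by decide +kernel
theorem nr_tri' : ∀ a b : Fin 30, nr (a + b) ≤ nr a + nr b := by decide +kernel
theorem nr_tri (a b c : Fin 30) : nr (a - c) ≤ nr (a - b) + nr (b - c) := by
  have := nr_tri' (a - b) (b - c)
  rwa [sub_add_sub_cancel] at this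
theorem nr_step : ∀ a b : Fin 30, nr (a - b) ≠ 0 →
    ∃ c, nr (a - c) = 1 ∧ nr (c - b) + 1 = nr (a - b) := by decide +kernel

/-- The circulant graph on Z/30 with connection set ±2, ±4, ±6, 15. -/
def G : SimpleGraph (Fin 30) where
  Adj x y := nr (x - y) = 1
  symm := ⟨fun x y h => by rw [nr_symm]; exact h⟩
  loopless := ⟨fun x h => by rw [nr_self] at h; omega⟩

theorem walk_ex : ∀ (k : ℕ) (x y : Fin 30), nr (x - y) = k → ∃ p : G.Walk x y, p.length = k := by
  intro k
  induction k with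
  | zero =>
    intro x y h
    obtain rfl := nr_zero x y h
    exact ⟨SimpleGraph.Walk.nil, rfl⟩
  | succ k ih =>
    intro x y h
    obtain ⟨z, h1, h2⟩ := nr_step x y (by omega)
    obtain ⟨p, hp⟩ := ih z y (by omega)
    exact ⟨SimpleGraph.Walk.cons (show G.Adj x z from h1) p, by simp [hp]⟩

theorem D_le {x y : Fin 30} (p : G.Walk x y) : nr (x - y) ≤ p.length := by
  induction p with
  | nil => rw [nr_self]; simp
  | @cons u v w h p ih =>
    have h' : nr (u - v) = 1 := h
    have := nr_tri u v w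
    rw [SimpleGraph.Walk.length_cons]
    omega

theorem conn : G.Connected :=
  ⟨fun x y => by obtain ⟨p, -⟩ := walk_ex _ x y rfl; exact ⟨p⟩⟩

theorem dist_eq (x y : Fin 30) : G.dist x y = nr (x - y) := by
  apply le_antisymm
  · obtain ⟨p, hp⟩ := walk_ex _ x y rfl
    rw [← hp]; exact SimpleGraph.dist_le p
  · obtain ⟨p, hp⟩ := (conn x y).exists_walk_length_eq_dist
    rw [← hp]; exact D_le p

theorem ecc_eq (v : Fin 30) : ecc G v = 4 := by
  unfold ecc
  simp only [dist_eq]
  revert v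
  decide +kernel

theorem ball0 : ∀ (v : Fin 30) (r : Fin 4),
    (Finset.univ.filter (fun u : Fin 30 => nr (u - v) ≤ r.val + 1)).card + 2 * ((r.val + 1) % 2)
      ≤ 10 * (r.val + 1) := by decide +kernel

theorem ball (v : Fin 30) (r : ℕ) (hr : 1 ≤ r) (h : r ≤ 4) :
    (Finset.univ.filter (fun u : Fin 30 => nr (u - v) ≤ r)).card + 2 * (r % 2) ≤ 10 * r := by
  have h1 := ball0 v ⟨r - 1, by omega⟩
  simpa only [show r - 1 + 1 = r by omega] using h1

theorem ball2 : ∀ u : Fin 30,
    (Finset.univ.filter (fun v : Fin 30 => nr (u - v) ≤ 2)).card = 20 := by decide +kernel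

theorem trip : ∀ a b : Fin 30, (∃ v, nr (0 - v) ≤ 1 ∧ nr (a - v) ≤ 1) ∨
    (∃ v, nr (0 - v) ≤ 1 ∧ nr (b - v) ≤ 1) ∨ (∃ v, nr (a - v) ≤ 1 ∧ nr (b - v) ≤ 1) ∨
    (∃ v, nr (0 - v) ≤ 2 ∧ nr (a - v) ≤ 2 ∧ nr (b - v) ≤ 2) := by decide +kernel

/-- A connected graph with mp(G) < 3, fractional broadcast number exactly 3, and
broadcast domination number greater than 3. -/
theorem result : ∃ (n : ℕ) (G : SimpleGraph (Fin n)) (t : ℕ), G.Connected ∧
    (∀ M, IsMultipacking G M → M.card < t) ∧ IsLeast (fracCosts G) (t : ℝ) ∧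
    (∀ f, IsDomBroadcast G f → t < ∑ v, f v) := by
  refine ⟨30, G, 3, conn, fun M hM => ?_, ⟨?_, ?_⟩, fun f hf => ?_⟩
  · by_contra hlt
    obtain ⟨T, hT, hT3⟩ := Finset.exists_subset_card_eq (s := M) (n := 3) (by omega)
    obtain ⟨x, y, z, hxy, hxz, hyz, rfl⟩ := Finset.card_eq_three.1 hT3
    have hx : x ∈ M := hT (by simp)
    have hy : y ∈ M := hT (by simp)
    have hz : z ∈ M := hT (by simp)
    have two : ∀ p q v : Fin 30, p ∈ M → q ∈ M → p ≠ q → nr (p - x - v) ≤ 1 →
        nr (q - x - v) ≤ 1 → False := by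
      intro p q v hp hq hpq h1 h2
      have h3 := hM (x + v) 1 le_rfl
      have h4 : ({p, q} : Finset (Fin 30)) ⊆ M.filter (fun u => G.dist u (x + v) ≤ 1) := by
        intro u hu
        simp only [Finset.mem_insert, Finset.mem_singleton] at hu
        rw [Finset.mem_filter, dist_eq, ← sub_sub]
        rcases hu with rfl | rfl
        · exact ⟨hp, h1⟩
        · exact ⟨hq, h2⟩
      have := Finset.card_le_card h4
      rw [Finset.card_pair hpq] at this
      omega
    rcases trip (y - x) (z - x) with ⟨v, h1, h2⟩ | ⟨v, h1, h2⟩ | ⟨v, h1, h2⟩ | ⟨v, h1, h2, h3⟩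
    · exact two x y v hx hy hxy (by rwa [sub_self]) h2
    · exact two x z v hx hz hxz (by rwa [sub_self]) h2
    · exact two y z v hy hz hyz h1 h2
    · have h5 := hM (x + v) 2 (by norm_num)
      have h4 : ({x, y, z} : Finset (Fin 30)) ⊆ M.filter (fun u => G.dist u (x + v) ≤ 2) := by
        intro u hu
        simp only [Finset.mem_insert, Finset.mem_singleton] at hu
        rw [Finset.mem_filter, dist_eq, ← sub_sub]
        rcases hu with rfl | rfl | rfl
        · exact ⟨hx, by rwa [sub_self]⟩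
        · exact ⟨hy, h2⟩
        · exact ⟨hz, h3⟩
      have := Finset.card_le_card h4
      omega
  · refine ⟨fun _ k => if k = 2 then 1 / 20 else 0, fun v k => by dsimp only; split_ifs <;> norm_num,
      fun u => ?_, ?_⟩
    · simp only [ecc_eq, dist_eq]
      have : ∀ v : Fin 30, (∑ k ∈ Finset.Icc 1 4,
          if nr (u - v) ≤ k then (if k = 2 then (1 / 20 : ℝ) else 0) else 0) =
          if nr (u - v) ≤ 2 then (1 / 20 : ℝ) else 0 := fun v => by
        rw [Finset.sum_eq_single 2]
        · simp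
        · intro k _ hk; simp [hk]
        · intro h; exact absurd (by decide) h
      simp only [this]
      rw [← Finset.sum_filter, Finset.sum_const, ball2]
      norm_num
    · simp only [ecc_eq]
      have : (∑ k ∈ Finset.Icc 1 4, ((k : ℕ) : ℝ) * (if k = 2 then (1 / 20 : ℝ) else 0))
          = 1 / 10 := by
        rw [Finset.sum_eq_single 2]
        · norm_num
        · intro k _ hk; simp [hk]
        · intro h; exact absurd (by decide) h
      simp only [this]
      norm_num
  · rintro c ⟨x, hx, hcov, rfl⟩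
    simp only [ecc_eq, dist_eq] at hcov ⊢
    have h1 : (30 : ℝ) ≤ ∑ u : Fin 30, ∑ v : Fin 30, ∑ k ∈ Finset.Icc 1 4,
        if nr (u - v) ≤ k then x v k else 0 := by
      have := Finset.sum_le_sum (s := Finset.univ) (fun u _ => hcov u)
      simpa using this
    rw [Finset.sum_comm] at h1
    have h2 : ∀ v : Fin 30, (∑ u : Fin 30, ∑ k ∈ Finset.Icc 1 4,
        if nr (u - v) ≤ k then x v k else 0) ≤
        10 * ∑ k ∈ Finset.Icc 1 4, ((k : ℕ) : ℝ) * x v k := fun v => by
      rw [Finset.sum_comm, Finset.mul_sum]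
      refine Finset.sum_le_sum fun k hk => ?_
      rw [← Finset.sum_filter, Finset.sum_const, nsmul_eq_mul, ← mul_assoc]
      rw [Finset.mem_Icc] at hk
      have h3 := ball v k hk.1 hk.2
      have h4 : (Finset.univ.filter (fun u : Fin 30 => nr (u - v) ≤ k)).card ≤ 10 * k := by omega
      exact mul_le_mul_of_nonneg_right (by exact_mod_cast h4) (hx v k)
    have h3 := h1.trans (Finset.sum_le_sum fun v _ => h2 v)
    rw [← Finset.mul_sum] at h3
    push_cast
    linarith
  · obtain ⟨hf1, hf⟩ := hf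
    simp only [ecc_eq] at hf1
    have h1 : (Finset.univ : Finset (Fin 30)) ⊆ Finset.univ.biUnion
        (fun v => if 1 ≤ f v then Finset.univ.filter (fun u => nr (u - v) ≤ f v) else ∅) := by
      intro u _
      obtain ⟨v, h1, h2⟩ := hf u
      rw [dist_eq] at h2
      exact Finset.mem_biUnion.2 ⟨v, Finset.mem_univ _, by simp [h1, h2]⟩
    have h2 := (Finset.card_le_card h1).trans Finset.card_biUnion_le
    have h3 : ∑ v : Fin 30, ((if 1 ≤ f v then Finset.univ.filter (fun u => nr (u - v) ≤ f v)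
        else ∅).card + 2 * (f v % 2)) ≤ ∑ v : Fin 30, 10 * f v := Finset.sum_le_sum fun v _ => by
      split_ifs with h
      · exact ball v _ h (hf1 v)
      · have : f v = 0 := by omega
        simp [this]
    rw [← Finset.mul_sum, Finset.sum_add_distrib, ← Finset.mul_sum] at h3
    have h4 : (Finset.univ : Finset (Fin 30)).card = 30 := by simp
    have h5 := Finset.sum_nat_mod Finset.univ 2 f
    omega

end Pool.Agent.Results.MP_93535d_co.Circ30
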